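import Pool.Agent.Helper68.T3.GoalsT
import Pool.Agent.Helper65.SG.Frame

/-!
# Packet PG-IFT (MP_a41896_nt, project T3): the implicit function theorem with norms
-/

set_option autoImplicit false

open MvPolynomial

namespace Pool.Agent.Helper49.T3

open WeierstrassCurve Height
open Pool.Agent.Helper29.BL Pool.Agent.Helper92.Ru Pool.Agent.Helper42.SG
open Pool.Agent.Helper65.SG (nfr_nps NPol)
open Pool.Agent.Helper68.T3 (FXP SHN gsup)

section order

variable {K : Type} [Field K] {τ : Type}

/-- the series `a` vanishes in degrees `< k` -/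
def Van (k : ℕ) (a : MvPowerSeries τ K) : Prop :=
  ∀ α : τ →₀ ℕ, α.degree < k → MvPowerSeries.coeff α a = 0

lemma Van.mulr {k : ℕ} {a : MvPowerSeries τ K} (ha : Van k a) (b : MvPowerSeries τ K) :
    Van k (a * b) := by
  classical
  intro α hα
  rw [MvPowerSeries.coeff_mul]
  refine Finset.sum_eq_zero fun p hp => ?_
  rw [Finset.HasAntidiagonal.mem_antidiagonal] at hp
  have h1 : p.1.degree + p.2.degree = α.degree := by rw [← map_add, hp]
  rw [ha p.1 (by omega), zero_mul]

lemma Van.mulc {k : ℕ} {a : MvPowerSeries τ K} (ha : Van k a) {b : MvPowerSeries τ K}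
    (hb : MvPowerSeries.constantCoeff b = 0) : Van (k + 1) (a * b) := by
  classical
  intro α hα
  rw [MvPowerSeries.coeff_mul]
  refine Finset.sum_eq_zero fun p hp => ?_
  rw [Finset.HasAntidiagonal.mem_antidiagonal] at hp
  have h1 : p.1.degree + p.2.degree = α.degree := by rw [← map_add, hp]
  by_cases h2 : p.1.degree < k
  · rw [ha p.1 h2, zero_mul]
  · have h3 : p.2.degree = 0 := by omega
    have h4 : p.2 = 0 := (Finsupp.degree_eq_zero_iff _).mp h3
    rw [h4, MvPowerSeries.coeff_zero_eq_constantCoeff_apply, hb, mul_zero]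

lemma Van.sum {k : ℕ} {ι : Type} (F : Finset ι) (a : ι → MvPowerSeries τ K)
    (h : ∀ i ∈ F, Van k (a i)) : Van k (∑ i ∈ F, a i) := by
  intro α hα
  rw [map_sum]
  exact Finset.sum_eq_zero fun i hi => h i hi α hα

end order

section contr

variable {K : Type} [Field K] {τ σ : Type} [DecidableEq σ]

/-- the substituted series -/
noncomputable def Uf (i' : σ) (κ : K) (u : σ → MvPowerSeries τ K) (y : MvPowerSeries τ K)
    (i : σ) : MvPowerSeries τ K :=
  if i = i' then MvPowerSeries.C κ * y else u i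

lemma Uf_cc {i' : σ} {κ : K} {u : σ → MvPowerSeries τ K} {y : MvPowerSeries τ K}
    (hu : ∀ i, MvPowerSeries.constantCoeff (u i) = 0) (hy : MvPowerSeries.constantCoeff y = 0)
    (i : σ) : MvPowerSeries.constantCoeff (Uf i' κ u y i) = 0 := by
  unfold Uf
  split_ifs
  · rw [map_mul, hy, mul_zero]
  · exact hu i

lemma exists_other {i' : σ} {s : σ →₀ ℕ} (hs1 : s ≠ Finsupp.single i' 1) (h1 : s i' = 1) :
    ∃ j, j ≠ i' ∧ s j ≠ 0 := by
  by_contra hcon
  push Not at hcon
  apply hs1
  ext j
  by_cases hj : j = i'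
  · rw [hj, Finsupp.single_eq_same, h1]
  · rw [hcon j hj, Finsupp.single_apply, if_neg (fun h => hj h.symm)]

variable [Fintype σ]

lemma prod_split (i' : σ) (κ : K) (u : σ → MvPowerSeries τ K) (y : MvPowerSeries τ K)
    (s : σ →₀ ℕ) : ∏ i, Uf i' κ u y i ^ s i =
      (MvPowerSeries.C κ * y) ^ s i' * ∏ i ∈ Finset.univ.erase i', u i ^ s i := by
  rw [← Finset.mul_prod_erase Finset.univ _ (Finset.mem_univ i')]
  congr 1
  · simp [Uf]
  · refine Finset.prod_congr rfl fun i hi => ?_
    rw [Finset.mem_erase] at hi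
    simp [Uf, hi.1]

lemma prod_cc {i' : σ} {κ : K} {u : σ → MvPowerSeries τ K} {y : MvPowerSeries τ K}
    (hu : ∀ i, MvPowerSeries.constantCoeff (u i) = 0) (hy : MvPowerSeries.constantCoeff y = 0)
    {s : σ →₀ ℕ} (hs : s ≠ 0) :
    MvPowerSeries.constantCoeff (∏ i, Uf i' κ u y i ^ s i) = 0 := by
  obtain ⟨j, hj⟩ := Finsupp.ne_iff.mp hs
  rw [map_prod]
  refine Finset.prod_eq_zero (Finset.mem_univ j) ?_
  rw [map_pow, Uf_cc hu hy, zero_pow hj]

lemma prod_contr {i' : σ} {κ : K} {u : σ → MvPowerSeries τ K} {y y' : MvPowerSeries τ K}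
    (hu : ∀ i, MvPowerSeries.constantCoeff (u i) = 0) (hy : MvPowerSeries.constantCoeff y = 0)
    (hy' : MvPowerSeries.constantCoeff y' = 0) {s : σ →₀ ℕ} (hs1 : s ≠ Finsupp.single i' 1)
    {k : ℕ} (hk : Van k (y - y')) :
    Van (k + 1) (∏ i, Uf i' κ u y i ^ s i - ∏ i, Uf i' κ u y' i ^ s i) := by
  classical
  rw [prod_split, prod_split, ← sub_mul]
  set R : MvPowerSeries τ K := ∏ i ∈ Finset.univ.erase i', u i ^ s i with hR
  rcases Nat.eq_zero_or_pos (s i') with h0 | hpos
  · rw [h0, pow_zero, pow_zero, sub_self, zero_mul]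
    intro α _
    simp
  · set Q : MvPowerSeries τ K := ∑ a ∈ Finset.range (s i'),
      (MvPowerSeries.C κ * y) ^ a * (MvPowerSeries.C κ * y') ^ (s i' - 1 - a) with hQ
    have e1 : (MvPowerSeries.C κ * y) ^ s i' - (MvPowerSeries.C κ * y') ^ s i' =
        Q * (MvPowerSeries.C κ * y - MvPowerSeries.C κ * y') := by
      rw [hQ, Commute.geom_sum₂_mul (Commute.all _ _)]
    have e2 : ((MvPowerSeries.C κ * y) ^ s i' - (MvPowerSeries.C κ * y') ^ s i') * R =
        (y - y') * (MvPowerSeries.C κ * (Q * R)) := by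
      rw [e1]; ring
    rw [e2]
    refine hk.mulc ?_
    rw [map_mul, map_mul]
    by_cases h1 : s i' = 1
    · obtain ⟨j, hj, hsj⟩ := exists_other hs1 h1
      have : MvPowerSeries.constantCoeff R = 0 := by
        rw [hR, map_prod]
        refine Finset.prod_eq_zero (Finset.mem_erase.mpr ⟨hj, Finset.mem_univ j⟩) ?_
        rw [map_pow, hu j, zero_pow hsj]
      rw [this, mul_zero, mul_zero]
    · have : MvPowerSeries.constantCoeff Q = 0 := by
        rw [hQ, map_sum]
        refine Finset.sum_eq_zero fun a ha => ?_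
        rw [Finset.mem_range] at ha
        rw [map_mul, map_pow, map_pow, map_mul, map_mul, hy, hy', mul_zero]
        rcases Nat.eq_zero_or_pos a with h | h
        · rw [zero_pow (n := s i' - 1 - a) (by omega), mul_zero]
        · rw [zero_pow (n := a) (by omega), zero_mul]
      rw [this, zero_mul, mul_zero]

end contr

section norm

variable {K : Type} [Field K] {v : AbsoluteValue K ℝ} {A : Type} [CommRing A] [Algebra K A]
  {N : A → ℝ → Prop}

lemma fr_one (hN : NFr v N) : N 1 1 := by simpa using hN.const 1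

lemma fr_zero (hN : NFr v N) {T : ℝ} (hT : 0 ≤ T) : N 0 T := by
  have := hN.const 0
  rw [map_zero, map_zero] at this
  exact hN.mono _ _ _ this hT

lemma fr_pow (hN : NFr v N) {f : A} {S : ℝ} (hf : N f S) (n : ℕ) : N (f ^ n) (S ^ n) := by
  induction n with
  | zero => simpa using fr_one hN
  | succ n ih => rw [pow_succ, pow_succ]; exact hN.mul _ _ _ _ ih hf

lemma fr_prod (hN : NFr v N) {ι : Type} (F : Finset ι) (f : ι → A) (S : ι → ℝ)
    (h : ∀ i ∈ F, N (f i) (S i)) : N (∏ i ∈ F, f i) (∏ i ∈ F, S i) := by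
  classical
  induction F using Finset.induction_on with
  | empty => simpa using fr_one hN
  | insert a s ha ih =>
    rw [Finset.prod_insert ha, Finset.prod_insert ha]
    exact hN.mul _ _ _ _ (h a (Finset.mem_insert_self a s))
      (ih fun i hi => h i (Finset.mem_insert_of_mem hi))

/-- a combination with coefficients of total norm `≤ Γ` of elements of norm `≤ m` -/
lemma fr_comb (hN : NFr v N) {ι : Type} (F : Finset ι) (c : ι → K) (P : ι → A) (Γ m : ℝ)
    (hΓ : 0 ≤ Γ) (hm : 0 ≤ m) (h1 : IsNonarchimedean v → ∀ i ∈ F, v (c i) ≤ Γ)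
    (h2 : ¬ IsNonarchimedean v → ∑ i ∈ F, v (c i) ≤ Γ) (hP : ∀ i ∈ F, N (P i) m) :
    N (∑ i ∈ F, algebraMap K A (c i) * P i) (Γ * m) := by
  classical
  by_cases hv : IsNonarchimedean v
  · have h3 : ∀ G : Finset ι, G ⊆ F → N (∑ i ∈ G, algebraMap K A (c i) * P i) (Γ * m) := by
      intro G
      induction G using Finset.induction_on with
      | empty => intro _; simpa using fr_zero hN (mul_nonneg hΓ hm)
      | insert a s ha ih =>
        intro hG
        rw [Finset.sum_insert ha]
        have haF := hG (Finset.mem_insert_self a s)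
        have h4 := hN.mono _ _ (Γ * m) (hN.mul _ _ _ _ (hN.const (c a)) (hP a haF))
          (mul_le_mul_of_nonneg_right (h1 hv a haF) hm)
        have h5 := ih fun x hx => hG (Finset.mem_insert_of_mem hx)
        have h6 := hN.max hv _ _ _ _ h4 h5
        rwa [max_self] at h6
    exact h3 F (Finset.Subset.refl F)
  · have h3 : ∀ G : Finset ι, G ⊆ F →
        N (∑ i ∈ G, algebraMap K A (c i) * P i) ((∑ i ∈ G, v (c i)) * m) := by
      intro G
      induction G using Finset.induction_on with
      | empty => intro _; simpa using fr_zero hN (le_refl (0 : ℝ))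
      | insert a s ha ih =>
        intro hG
        rw [Finset.sum_insert ha, Finset.sum_insert ha, add_mul]
        have haF := hG (Finset.mem_insert_self a s)
        exact hN.add _ _ _ _ (hN.mul _ _ _ _ (hN.const (c a)) (hP a haF))
          (ih fun x hx => hG (Finset.mem_insert_of_mem hx))
    exact hN.mono _ _ _ (h3 F (Finset.Subset.refl F)) (mul_le_mul_of_nonneg_right (h2 hv) hm)

end norm

section main

lemma expand {K : Type} [Field K] {τ σ : Type} [Fintype σ] (ξ : σ → K)
    (U : σ → MvPowerSeries τ K) (g : MvPolynomial σ K) :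
    aeval (fun i => MvPowerSeries.C (ξ i) + U i) g =
      ∑ s ∈ (shiftP ξ g).support, algebraMap K (MvPowerSeries τ K) (coeff s (shiftP ξ g)) *
        ∏ i, U i ^ s i := by
  have h1 : aeval U (shiftP ξ g) = aeval (fun i => MvPowerSeries.C (ξ i) + U i) g := by
    unfold shiftP
    have h2 : (aeval U).comp (aeval (fun h => X h + C (ξ h)) : MvPolynomial σ K →ₐ[K] _) =
        (aeval (fun i => MvPowerSeries.C (ξ i) + U i) :
          MvPolynomial σ K →ₐ[K] MvPowerSeries τ K) := by
      refine MvPolynomial.algHom_ext fun i => ?_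
      rw [AlgHom.comp_apply, aeval_X, aeval_X, map_add, aeval_X, ← algebraMap_eq, AlgHom.commutes,
        add_comm]
      rfl
    exact DFunLike.congr_fun h2 g
  rw [← h1, aeval_def, eval₂_eq']

lemma exp_le {σ : Type} [Fintype σ] [DecidableEq σ] (i' : σ) {s : σ →₀ ℕ} (h0 : s ≠ 0)
    (h1 : s ≠ Finsupp.single i' 1) : 2 ≤ ∑ i, (if i = i' then 1 else 2) * s i := by
  have hle : ∀ j, (if j = i' then 1 else 2) * s j ≤ ∑ i, (if i = i' then 1 else 2) * s i :=
    fun j => Finset.single_le_sum (f := fun i => (if i = i' then 1 else 2) * s i)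
      (fun i _ => Nat.zero_le _) (Finset.mem_univ j)
  by_cases h2 : ∃ j, j ≠ i' ∧ s j ≠ 0
  · obtain ⟨j, hj, hs⟩ := h2
    have := hle j
    rw [if_neg hj] at this
    omega
  · have h3 : ∀ j, j ≠ i' → s j = 0 := by
      intro j hj
      by_contra hcon
      exact h2 ⟨j, hj, hcon⟩
    have h4 := hle i'
    rw [if_pos rfl, one_mul] at h4
    have h5 : s i' ≠ 0 := by
      intro h
      apply h0
      ext j
      by_cases hj : j = i'
      · rw [hj, h]; rfl
      · rw [h3 j hj]; rfl
    have h6 : s i' ≠ 1 := by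
      intro h
      obtain ⟨j, hj, hs⟩ := exists_other h1 h
      exact hs (h3 j hj)
    omega

theorem t_IFT (hFXP : FXP) (hSHN : SHN) : Pool.Agent.Helper68.T3.IFT := by
  classical
  intro K _ _ σ _ _ D0
  obtain ⟨B, hB, hS⟩ := hSHN K σ D0
  refine ⟨B, hB, fun τ g ξ i' κ u hdeg hg hδ hu => ?_⟩
  obtain ⟨hc0, hc1, hnorm⟩ := hS g ξ hdeg
  set p := shiftP ξ g with hp
  set δ : K := κ * eval ξ (pderiv i' g) with hδd
  set e : σ →₀ ℕ := Finsupp.single i' 1 with he
  have hce : coeff e p = eval ξ (pderiv i' g) := hc1 i'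
  have hce0 : coeff e p ≠ 0 := by
    rw [hce]
    intro h
    rw [hδd, h, mul_zero] at hδ
    exact hδ rfl
  have heS : e ∈ p.support := by rwa [mem_support_iff]
  have h0S : ∀ s ∈ p.support, s ≠ 0 := by
    intro s hs h
    rw [h, mem_support_iff, hc0, hg] at hs
    exact hs rfl
  set F := p.support.erase e with hF
  have hF0 : ∀ s ∈ F, s ≠ 0 := fun s hs => h0S s (Finset.mem_of_mem_erase hs)
  have hF1 : ∀ s ∈ F, s ≠ e := fun s hs => Finset.ne_of_mem_erase hs
  -- the coefficients at a place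
  have hcoef : ∀ (v : AbsoluteValue K ℝ) (s : σ →₀ ℕ),
      v (coeff s p) ≤ B v * gsup v g * (∏ i, Mv v (ξ i)) ^ D0 := by
    intro v s
    have h := Pool.Agent.Helper65.SG.coeff_le_of_nps (r := fun _ : σ => (1 : ℝ))
      (fun _ => one_pos) (hnorm v) s
    have h1 : rpw (fun _ : σ => (1 : ℝ)) s = 1 := by simp [rpw]
    rw [h1, div_one, coeff_coe] at h
    exact h
  set Φ : MvPowerSeries τ K → MvPowerSeries τ K := fun y =>
    algebraMap K (MvPowerSeries τ K) (-δ⁻¹) *
      ∑ s ∈ F, algebraMap K (MvPowerSeries τ K) (coeff s p) * ∏ i, Uf i' κ u y i ^ s i with hΦ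
  obtain ⟨y, hy0, hyΦ, hyN⟩ := hFXP K τ Φ (by
    intro y hy
    rw [hΦ]
    simp only
    rw [map_mul, map_sum]
    rw [Finset.sum_eq_zero, mul_zero]
    intro s hs
    rw [map_mul, prod_cc hu hy (hF0 s hs), mul_zero]) (by
    intro k y y' hy hy' hyy α hα
    have hk : Van k (y - y') := by
      intro β hβ
      rw [map_sub, hyy β hβ, sub_self]
    have h1 : Van (k + 1) (∑ s ∈ F, (∏ i, Uf i' κ u y i ^ s i - ∏ i, Uf i' κ u y' i ^ s i) *
        algebraMap K (MvPowerSeries τ K) (coeff s p)) :=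
      Van.sum F _ fun s hs => (prod_contr hu hy hy' (hF1 s hs) hk).mulr _
    have h2 := (h1.mulr (algebraMap K (MvPowerSeries τ K) (-δ⁻¹))) α hα
    rw [← sub_eq_zero, ← map_sub, ← h2]
    congr 1
    rw [hΦ]
    simp only
    rw [← mul_sub, ← Finset.sum_sub_distrib, mul_comm]
    congr 1
    refine Finset.sum_congr rfl fun s _ => ?_
    ring)
  refine ⟨y, hy0, ?_, fun v => ?_, fun v r S hr hS1 hκS huN => ?_⟩
  · -- the equation
    have h1 := expand ξ (Uf i' κ u y) g
    have h2 : (fun i => MvPowerSeries.C (ξ i) + Uf i' κ u y i) =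
        fun i => MvPowerSeries.C (ξ i) + if i = i' then MvPowerSeries.C κ * y else u i := rfl
    rw [h2] at h1
    rw [h1, ← Finset.add_sum_erase _ _ heS]
    have h3 : ∏ i, Uf i' κ u y i ^ e i = MvPowerSeries.C κ * y := by
      rw [prod_split, he, Finsupp.single_eq_same, pow_one]
      rw [Finset.prod_eq_one, mul_one]
      intro i hi
      rw [Finset.mem_erase] at hi
      rw [Finsupp.single_apply, if_neg (fun h => hi.1 h.symm), pow_zero]
    have h4 : algebraMap K (MvPowerSeries τ K) δ * Φ y =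
        - ∑ s ∈ F, algebraMap K (MvPowerSeries τ K) (coeff s p) * ∏ i, Uf i' κ u y i ^ s i := by
      rw [hΦ]
      simp only
      rw [← mul_assoc, ← map_mul, mul_neg, mul_inv_cancel₀ hδ, map_neg, map_one, neg_one_mul]
    rw [h3, hce]
    have h5 : algebraMap K (MvPowerSeries τ K) (eval ξ (pderiv i' g)) *
        (MvPowerSeries.C κ * y) = algebraMap K (MvPowerSeries τ K) δ * y := by
      rw [hδd, map_mul]
      have : (algebraMap K (MvPowerSeries τ K)) κ = MvPowerSeries.C κ := rfl
      rw [this]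
      ring
    have h6 : algebraMap K (MvPowerSeries τ K) δ * y =
        - ∑ s ∈ F, algebraMap K (MvPowerSeries τ K) (coeff s p) * ∏ i, Uf i' κ u y i ^ s i := by
      rw [← h4, hyΦ]
    rw [h5, h6]
    exact neg_add_cancel _
  · rw [hδd, map_mul, ← hce]
    exact mul_le_mul_of_nonneg_left (hcoef v e) (v.nonneg κ)
  · set Γ : ℝ := B v * gsup v g * (∏ i, Mv v (ξ i)) ^ D0 with hΓ
    have hN := nfr_nps v hr
    have hδv : 0 < v δ := v.pos hδ
    have hcev : 0 < v (coeff e p) := v.pos hce0
    have hΓ0 : 0 < Γ := lt_of_lt_of_le hcev (hcoef v e)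
    have hS0 : 0 < S := by linarith
    have hδΓ : v δ ≤ S * Γ := by
      calc v δ = v κ * v (coeff e p) := by rw [hδd, map_mul, ← hce]
        _ ≤ S * Γ := mul_le_mul hκS (hcoef v e) (v.nonneg _) hS0.le
    set q : ℝ := v δ / (Γ * S) with hq
    have hq0 : 0 ≤ q := by positivity
    have hq1 : q ≤ 1 := by
      rw [hq, div_le_one (by positivity)]
      linarith
    refine hyN v r _ hr (by positivity) fun z hz hzN => ?_
    have hU : ∀ i, NPS v r (Uf i' κ u z i) (q ^ (if i = i' then 1 else 2)) := by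
      intro i
      unfold Uf
      split_ifs with h
      · have h1 := hN.mul _ _ _ _ (hN.const κ) hzN
        refine hN.mono _ _ _ h1 ?_
        rw [pow_one, hq]
        calc v κ * (v δ / (Γ * S ^ 2)) ≤ S * (v δ / (Γ * S ^ 2)) :=
              mul_le_mul_of_nonneg_right hκS (by positivity)
          _ = v δ / (Γ * S) := by field_simp
      · refine hN.mono _ _ _ (huN i h) (le_of_eq ?_)
        rw [hq]
        field_simp
    have hP : ∀ s ∈ F, NPS v r (∏ i, Uf i' κ u z i ^ s i) (q ^ 2) := by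
      intro s hs
      have h1 := fr_prod hN Finset.univ (fun i => Uf i' κ u z i ^ s i)
        (fun i => (q ^ (if i = i' then 1 else 2)) ^ s i) (fun i _ => fr_pow hN (hU i) (s i))
      refine hN.mono _ _ _ h1 ?_
      have h2 : ∏ i, (q ^ (if i = i' then 1 else 2)) ^ s i =
          q ^ (∑ i, (if i = i' then 1 else 2) * s i) := by
        rw [← Finset.prod_pow_eq_pow_sum]
        exact Finset.prod_congr rfl fun i _ => (pow_mul _ _ _).symm
      rw [h2]
      exact pow_le_pow_of_le_one hq0 hq1 (exp_le i' (hF0 s hs) (hF1 s hs))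
    have hC := fr_comb hN F (fun s => coeff s p) (fun s => ∏ i, Uf i' κ u z i ^ s i) Γ (q ^ 2)
      hΓ0.le (by positivity) (fun _ s _ => hcoef v s) (fun hv => by
        refine le_trans (le_of_eq ?_) ((hnorm v).2.2 hv F)
        refine Finset.sum_congr rfl fun s _ => ?_
        rw [coeff_coe]
        simp [rpw]) hP
    have h3 := hN.mul _ _ _ _ (hN.const (-δ⁻¹)) hC
    refine hN.mono _ _ _ h3 (le_of_eq ?_)
    rw [v.map_neg, map_inv₀, hq]
    field_simp

end main

end Pool.Agent.Helper49.T3
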